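import Pool.Agent.helper69.LN.Spec

set_option autoImplicit false

namespace Pool.Agent.LN

open Finset Pool.Agent.helper38.Neg Pool.Agent.helper55.NT

/-- The pairs `(0, b)` with `1 ≤ b < u`. -/
def GRO_U (M u : ℕ) : Finset (Fin M × Fin M) :=
  univ.filter fun e => (e.1 : ℕ) = 0 ∧ 1 ≤ (e.2 : ℕ) ∧ (e.2 : ℕ) < u

theorem GRO_mem {M u : ℕ} (e : Fin M × Fin M) :
    e ∈ GRO_U M u ↔ (e.1 : ℕ) = 0 ∧ 1 ≤ (e.2 : ℕ) ∧ (e.2 : ℕ) < u := by
  simp [GRO_U]

theorem GRO_touch {M u v : ℕ} (h2 : 2 ≤ v) (hM : v ≤ M) (hu : v ≤ u) :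
    v ≤ (touch (GRO_U M u)).card := by
  have h : (univ : Finset (Fin v)).map (Fin.castLEEmb hM) ⊆ touch (GRO_U M u) := by
    intro a ha
    rw [mem_map] at ha
    obtain ⟨i, -, rfl⟩ := ha
    rw [touch, mem_union]
    rcases Nat.eq_zero_or_pos (i : ℕ) with hi | hi
    · left
      rw [mem_image]
      refine ⟨(⟨0, by omega⟩, ⟨1, by omega⟩), ?_, ?_⟩
      · rw [GRO_mem]
        exact ⟨rfl, le_refl 1, by show 1 < u; omega⟩
      · apply Fin.ext
        show 0 = (i : ℕ)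
        exact hi.symm
    · right
      rw [mem_image]
      refine ⟨(⟨0, by omega⟩, Fin.castLE hM i), ?_, ?_⟩
      · rw [GRO_mem]
        exact ⟨rfl, hi, by show (i : ℕ) < u; have := i.2; omega⟩
      · apply Fin.ext
        rfl
  have h3 := card_le_card h
  rw [card_map, card_univ, Fintype.card_fin] at h3
  exact h3

/-- The projection to the first bits. -/
def GRO_σ (n N : ℕ) : Fin n → Fin N ⊕ Bool :=
  fun i => if h : (i : ℕ) < N then Sum.inl ⟨i, h⟩ else Sum.inr false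

theorem GRO_sb {n N : ℕ} (x : Fin N → Bool) (i : Fin n) (h : (i : ℕ) < N) :
    sb (GRO_σ n N) x i = x ⟨i, h⟩ := by
  simp [sb, GRO_σ, h]

theorem GRO_sb' {n N : ℕ} (x : Fin N → Bool) (i : Fin n) (h : ¬ (i : ℕ) < N) :
    sb (GRO_σ n N) x i = false := by
  simp [sb, GRO_σ, h]

theorem GRO_nat (b u n v : ℕ) (hb : v ≤ b) (hv : v = min u (Nat.sqrt (Nat.sqrt n) / 4)) :
    min u n ≤ (4 * b + 4) ^ 4 := by
  have hmono : ∀ w, w ≤ b → (4 * w + 4) ^ 4 ≤ (4 * b + 4) ^ 4 := fun w hw =>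
    Nat.pow_le_pow_left (by omega) 4
  refine le_trans ?_ (hmono v hb)
  rcases le_total u (Nat.sqrt (Nat.sqrt n) / 4) with h | h
  · have hv' : v = u := by rw [hv, min_eq_left h]
    subst hv'
    have h1 : v ≤ 4 * v + 4 := by omega
    have h2 : 4 * v + 4 ≤ (4 * v + 4) ^ 4 := Nat.le_self_pow (by norm_num) _
    exact le_trans (min_le_left _ _) (le_trans h1 h2)
  · have hv' : v = Nat.sqrt (Nat.sqrt n) / 4 := by rw [hv, min_eq_right h]
    set S := Nat.sqrt (Nat.sqrt n) with hS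
    have h1 : S + 1 ≤ 4 * v + 4 := by omega
    have h2 : Nat.sqrt n < (S + 1) * (S + 1) := Nat.lt_succ_sqrt _
    have h3 : n < (Nat.sqrt n + 1) * (Nat.sqrt n + 1) := Nat.lt_succ_sqrt _
    have h4 : Nat.sqrt n + 1 ≤ (4 * v + 4) * (4 * v + 4) := by
      have := Nat.mul_le_mul h1 h1
      omega
    have h5 := Nat.mul_le_mul h4 h4
    have h6 : (4 * v + 4) * (4 * v + 4) * ((4 * v + 4) * (4 * v + 4)) = (4 * v + 4) ^ 4 := by ring
    have h7 : min u n ≤ n := min_le_right _ _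
    omega

theorem GRO_circuit (h2 : SUB_stmt) {n s u : ℕ} (C : Circuit n s) (o : Fin (n + s))
    (hC : C.Computes o (HC n)) (hF : FreeOf u C) :
    ∃ (C' : Circuit (Nat.sqrt n * Nat.sqrt n) (2 + s))
      (o' : Fin (Nat.sqrt n * Nat.sqrt n + (2 + s))),
      C'.Computes o' (Clique (Nat.sqrt n) (Nat.sqrt n / 2)) ∧
        LocalLE C' (GRO_U (Nat.sqrt n) u) 1 := by
  obtain ⟨C', hn, hv⟩ := h2 n (Nat.sqrt n * Nat.sqrt n) s
    (GRO_σ n (Nat.sqrt n * Nat.sqrt n)) C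
  obtain ⟨o', ho'⟩ := hv o
  refine ⟨C', o', ?_, ?_⟩
  · intro x
    rw [ho' x, hC]
    have : (fun i => sb (GRO_σ n (Nat.sqrt n * Nat.sqrt n)) x
        (Fin.castLE (Nat.sqrt_le n) i)) = x := by
      funext i
      rw [GRO_sb x (Fin.castLE (Nat.sqrt_le n) i) i.2]
      rfl
    unfold HC
    rw [this]
  · intro x _ hag
    have hconst : ∀ i, C'.notVals (x i) = C'.notVals (x 0) := by
      intro i
      rw [hn, hn]
      apply hF
      intro t ht
      by_cases h : (t : ℕ) < Nat.sqrt n * Nat.sqrt n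
      · rw [GRO_sb _ _ h, GRO_sb _ _ h]
        have he : finProdFinEquiv ((finProdFinEquiv.symm (⟨t, h⟩ :
            Fin (Nat.sqrt n * Nat.sqrt n))) : Fin (Nat.sqrt n) × Fin (Nat.sqrt n)) =
            ⟨t, h⟩ := Equiv.apply_symm_apply _ _
        rw [← he]
        apply hag i 0
        intro hmem
        rw [GRO_mem] at hmem
        have h3 := congrArg Fin.val he
        rw [finProdFinEquiv_apply_val, hmem.1] at h3
        simp only [mul_zero, add_zero] at h3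
        omega
      · rw [GRO_sb' _ _ h, GRO_sb' _ _ h]
    have : (Set.range fun i => C'.notVals (x i)) ⊆ {C'.notVals (x 0)} := by
      rintro _ ⟨i, rfl⟩
      exact hconst i
    calc (Set.range fun i => C'.notVals (x i)).encard
        ≤ ({C'.notVals (x 0)} : Set (List Bool)).encard := Set.encard_le_encard this
      _ = 1 := Set.encard_singleton _
      _ ≤ ((1 : ℕ) : ℕ∞) := by norm_num

theorem GRO_lg (n : ℕ) : 1 ≤ lg n := by
  unfold lg
  exact Nat.log_pos (by norm_num) (by omega)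

theorem GRO (h1 : LBU_stmt) (h2 : SUB_stmt) : GRO_stmt := by
  intro u hQ
  obtain ⟨k₁, hQ⟩ := hQ
  obtain ⟨δ, hδ, v0, hLB⟩ := h1 (1 / 2) (by norm_num)
  obtain ⟨t, ht⟩ := exists_nat_gt (1 / δ)
  set v1 := max v0 2 with hv1
  set B := 4 * v1 + 4 + 4 * (k₁ + 2) ^ t with hB
  refine ⟨B ^ 4 + 4 * (k₁ * t), ?_⟩
  intro n
  set L := lg n with hL
  have hL1 : 1 ≤ L := GRO_lg n
  set v := min (u n) (Nat.sqrt (Nat.sqrt n) / 4) with hv
  -- the bound for v
  have hvb : v ≤ v1 + ((k₁ + 2) * L ^ k₁) ^ t := by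
    rcases lt_or_ge v v1 with hlt | hge
    · omega
    · have hv0 : v0 ≤ v := le_trans (le_max_left _ _) hge
      have hv2 : 2 ≤ v := le_trans (le_max_right _ _) hge
      have hvS : v ≤ Nat.sqrt (Nat.sqrt n) / 4 := min_le_right _ _
      have hvu : v ≤ u n := min_le_left _ _
      have hS : Nat.sqrt (Nat.sqrt n) * Nat.sqrt (Nat.sqrt n) ≤ Nat.sqrt n := Nat.sqrt_le _
      have hS1 : 4 * v ≤ Nat.sqrt (Nat.sqrt n) := by omega
      have hS2 : 4 * v * (4 * v) ≤ Nat.sqrt n := le_trans (Nat.mul_le_mul hS1 hS1) hS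
      have hvv : 2 * v ≤ v * v := Nat.mul_le_mul_right v hv2
      have hA : 2 * v ≤ Nat.sqrt n / 2 := by
        have : 4 * v ≤ Nat.sqrt n := by nlinarith
        omega
      have hBn : Nat.sqrt n / 2 + v ^ 2 ≤ Nat.sqrt n := by
        have : 2 * v ^ 2 ≤ Nat.sqrt n := by nlinarith
        omega
      have hvM : v ≤ Nat.sqrt n := by nlinarith
      obtain ⟨s, hs, C, o, hC, hF⟩ := hQ n
      obtain ⟨C', o', hC', hLoc⟩ := GRO_circuit h2 C o hC hF
      have hmain := hLB v hv0 (Nat.sqrt n) (Nat.sqrt n / 2) hA hBn (GRO_U (Nat.sqrt n) (u n))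
        (fun e he => by
          rw [GRO_mem] at he
          rw [Fin.lt_def]
          omega)
        (GRO_touch hv2 hvM hvu) (2 + s) 1 C' o' hC' hLoc (by
          have hv1' : (1 : ℝ) ≤ (v : ℝ) := by exact_mod_cast le_trans (by norm_num) hv2
          have := Real.one_le_rpow hv1' (show (0 : ℝ) ≤ 1 - 1 / 2 by norm_num)
          simpa using this)
      -- 2 + s <= 2 ^ (k₁ * L ^ k₁ + 2)
      have hs2 : 2 + s ≤ 2 ^ ((k₁ + 2) * L ^ k₁) := by
        have h3 : 2 ^ (k₁ * L ^ k₁) * 2 ^ (2 * L ^ k₁) = 2 ^ ((k₁ + 2) * L ^ k₁) := by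
          rw [← pow_add]
          congr 1
          ring
        rw [← h3]
        have h4 : 1 ≤ L ^ k₁ := Nat.one_le_pow _ _ hL1
        have h5 : 2 ^ 2 ≤ 2 ^ (2 * L ^ k₁) := Nat.pow_le_pow_right (by norm_num) (by omega)
        have h6 : 1 ≤ 2 ^ (k₁ * L ^ k₁) := Nat.one_le_pow _ _ (by norm_num)
        have h7 : s ≤ 2 ^ (k₁ * L ^ k₁) := hs
        nlinarith
      have h8 : (2 : ℝ) ^ ((v : ℝ) ^ δ) ≤ (2 : ℝ) ^ ((((k₁ + 2) * L ^ k₁ : ℕ)) : ℝ) := by
        rw [Real.rpow_natCast]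
        refine le_trans hmain ?_
        exact_mod_cast hs2
      have h9 : (v : ℝ) ^ δ ≤ (((k₁ + 2) * L ^ k₁ : ℕ) : ℝ) :=
        (Real.rpow_le_rpow_left_iff (by norm_num)).1 h8
      have hvpos : (0 : ℝ) ≤ (v : ℝ) := Nat.cast_nonneg _
      have h10 : (v : ℝ) ≤ ((((k₁ + 2) * L ^ k₁ : ℕ)) : ℝ) ^ (1 / δ) := by
        have := Real.rpow_le_rpow (Real.rpow_nonneg hvpos δ) h9
          (show (0 : ℝ) ≤ 1 / δ by positivity)
        rw [← Real.rpow_mul hvpos] at this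
        rwa [mul_one_div_cancel hδ.ne', Real.rpow_one] at this
      have hone : (1 : ℝ) ≤ (((k₁ + 2) * L ^ k₁ : ℕ) : ℝ) := by
        have h4 : 1 ≤ L ^ k₁ := Nat.one_le_pow _ _ hL1
        have : 1 ≤ (k₁ + 2) * L ^ k₁ := by nlinarith
        exact_mod_cast this
      have h11 : (v : ℝ) ≤ ((((k₁ + 2) * L ^ k₁ : ℕ)) : ℝ) ^ (t : ℝ) :=
        le_trans h10 (Real.rpow_le_rpow_of_exponent_le hone ht.le)
      rw [Real.rpow_natCast] at h11
      have h12 : v ≤ ((k₁ + 2) * L ^ k₁) ^ t := by exact_mod_cast h11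
      omega
  have hfin := GRO_nat (v1 + ((k₁ + 2) * L ^ k₁) ^ t) (u n) n v hvb hv
  refine le_trans hfin ?_
  have e1 : 4 * (v1 + ((k₁ + 2) * L ^ k₁) ^ t) + 4 ≤ B * L ^ (k₁ * t) := by
    have h4 : 1 ≤ L ^ (k₁ * t) := Nat.one_le_pow _ _ hL1
    have h5 : ((k₁ + 2) * L ^ k₁) ^ t = (k₁ + 2) ^ t * L ^ (k₁ * t) := by
      rw [mul_pow, ← pow_mul]
    rw [h5, hB]
    nlinarith
  calc (4 * (v1 + ((k₁ + 2) * L ^ k₁) ^ t) + 4) ^ 4
      ≤ (B * L ^ (k₁ * t)) ^ 4 := Nat.pow_le_pow_left e1 4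
    _ = B ^ 4 * L ^ (4 * (k₁ * t)) := by
        rw [mul_pow, ← pow_mul]
        congr 2
        ring
    _ ≤ (B ^ 4 + 4 * (k₁ * t)) * L ^ (B ^ 4 + 4 * (k₁ * t)) :=
        Nat.mul_le_mul (Nat.le_add_right _ _)
          (Nat.pow_le_pow_right hL1 (Nat.le_add_left _ _))

end Pool.Agent.LN
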