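import Pool.Agent.helper69.LN.TSpec

/-!
# Project LN (MP_069684_lc), row TGR: the growth condition from the lower bound.
-/

set_option autoImplicit false

namespace Pool.Agent.LN

open Finset Pool.Agent.helper38.Neg Pool.Agent.helper55.NT

theorem TGR_pos {u K n s : ℕ} {C : Circuit n s} (h : LocPat u K C) : 1 ≤ K := by
  have h1 := h (fun _ _ => false) monotone_const (fun i j k _ => rfl)
  have h2 : (Set.range fun _ : ℕ => C.notVals (fun _ => false)) = {C.notVals (fun _ => false)} :=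
    Set.range_const
  rw [h2, Set.encard_singleton] at h1
  exact_mod_cast h1

theorem TGR (hTLB : TLB_stmt) : TGR_stmt := by
  intro u K k e hk
  set D : ℝ := (64 * (k + 3)) ^ 4 with hD
  have hD0 : 0 ≤ D := by positivity
  obtain ⟨d, hd⟩ := exists_nat_ge (2 * D)
  refine ⟨d + 1, fun n => ?_⟩
  set L := lg n with hL
  set m := min (u n) n with hm
  have hmn : m ≤ n := min_le_right _ _
  have hL1 : 1 ≤ L := lg_pos n
  obtain ⟨s, hs, C, o, hC, hr⟩ := hk n
  have hK : 1 ≤ K n := TGR_pos hr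
  rcases Nat.lt_or_ge m 2 with hn | hn
  · have a1 : 1 ≤ L ^ (4 * e + 1) := Nat.one_le_pow _ _ hL1
    have a3 : 1 ≤ (d + 1) * L ^ (4 * e + 1) := Nat.mul_pos (by omega) a1
    have a4 : 1 ≤ (d + 1) * L ^ (4 * e + 1) * K n := Nat.mul_pos a3 hK
    omega
  · have hs' : s ≤ 2 ^ (k * L ^ e) := hs
    have h1 := hTLB u n s (K n) C o hC hr hn
    rw [← hm] at h1
    have hn0 : (0 : ℝ) < n := by
      have : 0 < n := by omega
      exact_mod_cast this
    have hm0 : (0 : ℝ) < m := by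
      have : 0 < m := by omega
      exact_mod_cast this
    have hlogm : 0 < Real.log m := Real.log_pos (by exact_mod_cast hn)
    have hKr : (0 : ℝ) < (K n : ℝ) := by exact_mod_cast hK
    have hmn' : (m : ℝ) ≤ n := by exact_mod_cast hmn
    have h2 : ((s : ℝ) + 4) ≤ (2 : ℝ) ^ ((k * L ^ e + 3 : ℕ) : ℝ) := by
      rw [Real.rpow_natCast, pow_add]
      have h3 : ((s : ℕ) : ℝ) ≤ 2 ^ (k * L ^ e) := by exact_mod_cast hs'
      have h4 : (1 : ℝ) ≤ 2 ^ (k * L ^ e) := one_le_pow₀ (by norm_num)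
      nlinarith
    have h3 := h1.trans h2
    rw [Real.rpow_le_rpow_left_iff (by norm_num)] at h3
    set R : ℝ := (m : ℝ) / ((K n : ℝ) * Real.log m) with hR
    have hR0 : 0 ≤ R := by positivity
    have h4 : ((k * L ^ e + 3 : ℕ) : ℝ) ≤ (k + 3) * (L : ℝ) ^ e := by
      push_cast
      have : (1 : ℝ) ≤ (L : ℝ) ^ e := one_le_pow₀ (by exact_mod_cast hL1)
      nlinarith
    have h5 : R ^ ((1 : ℝ) / 4) ≤ (64 * (k + 3)) * (L : ℝ) ^ e := by
      have h6 := h3.trans h4
      linarith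
    have h6 : R ≤ D * (L : ℝ) ^ (4 * e) := by
      have h7 : (R ^ ((1 : ℝ) / 4)) ^ 4 ≤ ((64 * (k + 3)) * (L : ℝ) ^ e) ^ 4 :=
        pow_le_pow_left₀ (by positivity) h5 4
      have h8 : (R ^ ((1 : ℝ) / 4)) ^ 4 = R := by
        rw [← Real.rpow_natCast, ← Real.rpow_mul hR0]
        norm_num
      rw [h8, mul_pow, ← pow_mul, mul_comm e 4] at h7
      exact h7
    have h7 : (m : ℝ) ≤ D * (L : ℝ) ^ (4 * e) * ((K n : ℝ) * Real.log m) := by
      have h2r : (0 : ℝ) < (K n : ℝ) * Real.log m := by positivity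
      rwa [hR, div_le_iff₀ h2r] at h6
    have h8 : Real.log m ≤ 2 * L := by
      have h9 : (m : ℝ) ≤ (2 : ℝ) ^ (L + 1) := by
        have h14 : n ≤ 2 ^ (L + 1) := by
          have := lt_two_pow_lg n
          rw [← hL] at this
          omega
        exact hmn'.trans (by exact_mod_cast h14)
      have h10 : Real.log m ≤ Real.log ((2 : ℝ) ^ (L + 1)) := Real.log_le_log hm0 h9
      rw [Real.log_pow] at h10
      have h11 : Real.log 2 ≤ 1 := by
        have := Real.log_two_lt_d9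
        linarith
      have h12 : ((L + 1 : ℕ) : ℝ) * Real.log 2 ≤ ((L + 1 : ℕ) : ℝ) * 1 :=
        mul_le_mul_of_nonneg_left h11 (by positivity)
      have h13 : (1 : ℝ) ≤ L := by exact_mod_cast hL1
      push_cast at h10 h12
      linarith
    have hLr : (1 : ℝ) ≤ (L : ℝ) := by exact_mod_cast hL1
    have h9 : (m : ℝ) ≤ (((d + 1) * L ^ (4 * e + 1) * K n : ℕ) : ℝ) := by
      calc (m : ℝ) ≤ D * (L : ℝ) ^ (4 * e) * ((K n : ℝ) * Real.log m) := h7
        _ ≤ D * (L : ℝ) ^ (4 * e) * ((K n : ℝ) * (2 * L)) := by gcongr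
        _ = (2 * D) * (L : ℝ) ^ (4 * e + 1) * (K n : ℝ) := by ring
        _ ≤ ((d + 1 : ℕ) : ℝ) * (L : ℝ) ^ (4 * e + 1) * (K n : ℝ) := by
          have e1 : (2 * D) ≤ ((d + 1 : ℕ) : ℝ) :=
            hd.trans (by exact_mod_cast (by omega : d ≤ d + 1))
          gcongr
        _ = (((d + 1) * L ^ (4 * e + 1) * K n : ℕ) : ℝ) := by push_cast; ring
    exact_mod_cast h9

end Pool.Agent.LN
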